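import Mathlib

set_option autoImplicit false

namespace Pool.Agent.Results.MP_51a8c5_co.Family

open Polynomial Finset
open scoped Classical

/-- The connected vertex sets of `G`: nonempty sets inducing a connected subgraph. -/
noncomputable def connSets {V : Type} [Fintype V] (G : SimpleGraph V) : Finset (Finset V) :=
  univ.filter fun S => (G.induce (S : Set V)).Connected

/-- The connected set polynomial `C(G;x)`. -/
noncomputable def connPoly {V : Type} [Fintype V] (G : SimpleGraph V) : ℝ[X] :=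
  ∑ S ∈ connSets G, X ^ S.card

/-- The node reliability `NRel(G;p)`. -/
noncomputable def nodeRel {V : Type} [Fintype V] (G : SimpleGraph V) : ℝ[X] :=
  ∑ S ∈ connSets G, X ^ S.card * (1 - X) ^ (Fintype.card V - S.card)

/-- Every complex root is real. -/
def AllReal (p : ℝ[X]) : Prop := ∀ z : ℂ, aeval z p = 0 → z.im = 0

def cl {V ι : Type} (f : V → ι) : SimpleGraph V where
  Adj u v := u ≠ v ∧ f u = f v
  symm := ⟨fun _ _ h => ⟨h.1.symm, h.2.symm⟩⟩
  loopless := ⟨fun _ h => h.1 rfl⟩

theorem reach_eq {V ι : Type} (f : V → ι) (S : Set V) (u v : S)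
    (h : ((cl f).induce S).Reachable u v) : f u = f v := by
  obtain ⟨w⟩ := h
  induction w with
  | nil => rfl
  | cons h _ ih => exact (show f _ = f _ from h.2).trans ih

theorem conn_iff {V ι : Type} (f : V → ι) (S : Set V) :
    ((cl f).induce S).Connected ↔ S.Nonempty ∧ ∀ u ∈ S, ∀ v ∈ S, f u = f v := by
  constructor
  · intro h
    refine ⟨?_, fun u hu v hv => reach_eq f S ⟨u, hu⟩ ⟨v, hv⟩ (h.preconnected _ _)⟩
    obtain ⟨⟨u, hu⟩⟩ := h.nonempty
    exact ⟨u, hu⟩
  · rintro ⟨⟨u, hu⟩, h⟩
    have : Nonempty S := ⟨⟨u, hu⟩⟩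
    refine ⟨fun a b => ?_⟩
    by_cases hab : a = b
    · rw [hab]
    · exact SimpleGraph.Adj.reachable
        (show (cl f).Adj a b from ⟨fun e => hab (Subtype.ext e), h _ a.2 _ b.2⟩)

theorem connPoly_cl {V ι : Type} [Fintype V] [Fintype ι] (f : V → ι) :
    connPoly (cl f) = ∑ i : ι, ((X + 1) ^ (univ.filter fun v => f v = i).card - 1) := by
  have h1 : connSets (cl f) = univ.biUnion fun i : ι =>
      (univ.filter fun v => f v = i).powerset.erase ∅ := by
    ext S
    simp only [connSets, mem_filter, mem_univ, true_and, conn_iff, mem_biUnion, mem_erase,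
      mem_powerset, coe_nonempty, mem_coe]
    constructor
    · rintro ⟨⟨u, hu⟩, h⟩
      exact ⟨f u, ne_empty_of_mem hu, fun v hv => by simp [h v hv u hu]⟩
    · rintro ⟨i, h0, h⟩
      refine ⟨nonempty_iff_ne_empty.2 h0, fun u hu v hv => ?_⟩
      have a := h hu; have b := h hv
      simp only [mem_filter, mem_univ, true_and] at a b
      rw [a, b]
  rw [connPoly, h1, sum_biUnion]
  · refine sum_congr rfl fun i _ => ?_
    rw [eq_sub_iff_add_eq]
    have := sum_erase_add (univ.filter fun v => f v = i).powerset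
      (fun S => (X : ℝ[X]) ^ S.card) (empty_mem_powerset _)
    simp only [card_empty, pow_zero] at this
    rw [this, ← sum_pow_mul_eq_add_pow]
    simp
  · intro i _ j _ hij
    rw [Function.onFun, disjoint_left]
    intro S hi hj
    simp only [mem_erase, mem_powerset] at hi hj
    obtain ⟨u, hu⟩ := nonempty_iff_ne_empty.2 hi.1
    have a := hi.2 hu; have b := hj.2 hu
    simp only [mem_filter, mem_univ, true_and] at a b
    exact hij (a.symm.trans b)

theorem exists_poly (d : ℕ) : ∃ p : ℤ[X], p.Monic ∧ p.natDegree = d + 1 ∧ p.eval 1 = 0 ∧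
    (∀ k, 1 ≤ k → 0 ≤ p.coeff k) ∧ 1 ≤ p.coeff 1 ∧ p.coeff 0 ≤ 0 ∧
    ∀ z : ℂ, aeval z p = 0 → z.im = 0 := by
  induction d with
  | zero =>
    refine ⟨X - C 1, monic_X_sub_C _, by rw [natDegree_X_sub_C], by simp, ?_, by simp [coeff_one],
      by simp, ?_⟩
    · intro k hk
      rw [coeff_sub, coeff_C, if_neg (by omega), coeff_X]
      split_ifs <;> simp
    · intro z hz
      simp only [map_sub, aeval_X, map_one] at hz
      rw [sub_eq_zero.1 hz]; simp
  | succ d ih =>
    obtain ⟨p, hm, hd, he, hk, h1, h0, hr⟩ := ih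
    refine ⟨(X + C (1 - p.coeff 0)) * p, (monic_X_add_C _).mul hm, ?_, by simp [he], ?_, ?_, ?_, ?_⟩
    · rw [(monic_X_add_C _).natDegree_mul hm, natDegree_X_add_C, hd]; ring
    · intro k hk1
      obtain ⟨k, rfl⟩ : ∃ j, k = j + 1 := ⟨k - 1, by omega⟩
      rw [add_mul, coeff_add, coeff_X_mul, coeff_C_mul]
      rcases Nat.eq_zero_or_pos k with rfl | hpos
      · simp only [zero_add]; nlinarith
      · have := hk k hpos; have := hk (k + 1) (by omega); nlinarith
    · rw [add_mul, coeff_add, show (1 : ℕ) = 0 + 1 from rfl, coeff_X_mul, coeff_C_mul]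
      simp only [zero_add]; nlinarith
    · rw [add_mul, coeff_add, coeff_C_mul, mul_coeff_zero, coeff_X_zero]
      nlinarith
    · intro z hz
      rw [map_mul, mul_eq_zero] at hz
      rcases hz with hz | hz
      · simp only [map_add, aeval_X, aeval_C, algebraMap_int_eq, eq_intCast] at hz
        rw [eq_neg_of_add_eq_zero_left hz]; simp
      · exact hr z hz

theorem nodeRel_real {V : Type} [Fintype V] (G : SimpleGraph V) (h : AllReal (connPoly G)) :
    AllReal (nodeRel G) := by
  intro z hz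
  by_cases h1 : 1 - z = 0
  · rw [← sub_eq_zero.1 h1]; simp
  have h2 : aeval (z / (1 - z)) (connPoly G) * (1 - z) ^ Fintype.card V = 0 := by
    rw [← hz, connPoly, nodeRel, map_sum, map_sum, sum_mul]
    refine sum_congr rfl fun S _ => ?_
    simp only [map_pow, aeval_X, map_mul, map_sub, map_one]
    obtain ⟨m, hm⟩ := Nat.exists_eq_add_of_le (card_le_univ S)
    rw [hm, Nat.add_sub_cancel_left, pow_add, div_pow]
    field_simp
  have h3 := h _ ((mul_eq_zero.1 h2).resolve_right (pow_ne_zero _ h1))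
  set r := z / (1 - z) with hr
  have h4 : z = r * (1 - z) := by rw [hr]; field_simp
  have h5 := congrArg Complex.im h4
  have h6 := congrArg Complex.re h4
  simp only [Complex.mul_im, Complex.mul_re, h3, Complex.sub_im, Complex.sub_re, Complex.one_im,
    Complex.one_re] at h5 h6
  by_contra him
  have h7 : 1 + r.re = 0 := by
    have : z.im * (1 + r.re) = 0 := by linarith
    exact (mul_eq_zero.1 this).resolve_left him
  have : r.re = -1 := by linarith
  rw [this] at h6; linarith

theorem result (d : ℕ) : ∃ (V : Type) (_ : Fintype V) (G : SimpleGraph V),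
    Nonempty V ∧ ¬ G.Connected ∧ d ≤ (connPoly G).natDegree ∧
      AllReal (connPoly G) ∧ AllReal (nodeRel G) := by
  obtain ⟨p, hm, hd, he, hk, h1, -, hr⟩ := exists_poly (d + 1)
  let ι := Σ k : Fin (d + 3), Fin (p.coeff k).toNat
  let V := Σ i : ι, Fin i.1
  let f : V → ι := fun v => v.1
  have hfib : ∀ i : ι, (univ.filter fun v : V => f v = i).card = i.1 := by
    intro i
    have : (univ.filter fun v : V => f v = i) = univ.map ⟨fun j : Fin i.1 => (⟨i, j⟩ : V),
        fun a b h => by simpa [V] using h⟩ := by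
      ext ⟨j, x⟩
      simp only [mem_filter, mem_univ, true_and, mem_map, Function.Embedding.coeFn_mk, f]
      constructor
      · rintro rfl; exact ⟨x, rfl⟩
      · rintro ⟨y, hy⟩; exact (congrArg Sigma.fst hy).symm
    rw [this]; simp
  have hC : connPoly (cl f) = (p.map (Int.castRingHom ℝ)).comp (X + 1) := by
    rw [connPoly_cl]
    rw [sum_congr rfl fun i _ => show ((X : ℝ[X]) + 1) ^ _ - 1 = (X + 1) ^ (i.1 : ℕ) - 1 by
      rw [← hfib i]; congr!]
    rw [Fintype.sum_sigma]
    have e0 : ∀ k : Fin (d + 3), ∑ y : Fin (p.coeff k).toNat,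
        (((X : ℝ[X]) + 1) ^ ((⟨k, y⟩ : ι).1 : ℕ) - 1) =
        (((p.coeff k).toNat : ℕ) : ℝ[X]) * ((X + 1) ^ (k : ℕ) - 1) := by
      intro k; simp [sum_const, mul_sub]
    simp only [e0]
    have e1 : ∀ k : Fin (d + 3), (((p.coeff k).toNat : ℕ) : ℝ[X]) * ((X + 1) ^ (k : ℕ) - 1) =
        C ((p.coeff k : ℤ) : ℝ) * (X + 1) ^ (k : ℕ) - C ((p.coeff k : ℤ) : ℝ) := by
      intro k
      rcases Nat.eq_zero_or_pos k with h0 | h0
      · simp [h0]
      · have : ((p.coeff k).toNat : ℤ) = p.coeff k := Int.toNat_of_nonneg (hk k h0)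
        rw [← this, Int.cast_natCast, map_natCast, this]; ring
    simp only [e1]
    rw [sum_sub_distrib, ← map_sum, Fin.sum_univ_eq_sum_range
      (fun k => C ((p.coeff k : ℤ) : ℝ) * (X + 1) ^ k),
      Fin.sum_univ_eq_sum_range (fun k => ((p.coeff k : ℤ) : ℝ))]
    have e2 : ∑ k ∈ range (d + 3), ((p.coeff k : ℤ) : ℝ) = 0 := by
      rw [eval_eq_sum_range, hd] at he
      simp only [one_pow, mul_one] at he
      exact_mod_cast he
    rw [e2, map_zero, sub_zero, comp, eval₂_eq_sum_range' (n := d + 3)]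
    · simp
    · rw [hm.natDegree_map, hd]; omega
  have hA : AllReal (connPoly (cl f)) := by
    intro z hz
    rw [hC, aeval_comp] at hz
    have := hr (z + 1) (by
      rw [← hz, ← algebraMap_int_eq, aeval_map_algebraMap]; simp)
    simpa using this
  have hl : 0 < (p.coeff (d + 2)).toNat := by
    have : p.coeff (d + 2) = 1 := by rw [← hm.coeff_natDegree, hd]
    rw [this]; decide
  have hs : 0 < (p.coeff 1).toNat := by omega
  let u : V := ⟨⟨⟨d + 2, by omega⟩, ⟨0, hl⟩⟩, ⟨0, by simp⟩⟩
  let v : V := ⟨⟨⟨1, by omega⟩, ⟨0, hs⟩⟩, ⟨0, by simp⟩⟩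
  refine ⟨V, inferInstance, cl f, ⟨u⟩, ?_, ?_, hA, nodeRel_real _ hA⟩
  · intro hc
    have : ∀ a b : V, (cl f).Reachable a b → f a = f b := by
      rintro a b ⟨w⟩
      induction w with
      | nil => rfl
      | cons h _ ih => exact (show f _ = f _ from h.2).trans ih
    have h2 := congrArg (fun i : ι => (i.1 : ℕ)) (this u v (hc.preconnected u v))
    simp [f, u, v] at h2
  · rw [hC, natDegree_comp, hm.natDegree_map, hd, ← C_1, natDegree_X_add_C]; omega

end Pool.Agent.Results.MP_51a8c5_co.Family
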